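import Pool.Agent.Lib.MP_c7af3c_ag.T2.IfaceB
import Pool.Agent.Lib.MP_c7af3c_ag.EDGE.H9.Forms

/-!
# MP_c7af3c_ag, project T2: the conic is unique (row UNIQ, helper60)
-/

set_option autoImplicit false

namespace Pool.Agent.T2.H60

open MvPolynomial Pool.Agent.Edge.H9.Forms

section

variable {K : Type} [Field K]

theorem mulS_eq (a : MvPolynomial (Fin 3) K) (r : ℕ) : mulS a r = (S3 K r).map (mulL a) := rfl

theorem finrank_mulS {a : MvPolynomial (Fin 3) K} (ha : a ≠ 0) (r : ℕ) :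
    Module.finrank K (mulS a r) = (r + 2).choose 2 := by
  rw [mulS_eq, finrank_map_mul ha, finrank_hom]

instance finite_mulS (a : MvPolynomial (Fin 3) K) (r : ℕ) : FiniteDimensional K (mulS a r) := by
  rw [mulS_eq]
  infer_instance

theorem mulS_mul_le {a b : MvPolynomial (Fin 3) K} {i : ℕ} (hb : b.IsHomogeneous i) (r : ℕ) :
    mulS (a * b) r ≤ mulS a (i + r) := by
  intro g hg
  obtain ⟨u, hu, rfl⟩ := mem_mulS.1 hg
  exact mem_mulS.2 ⟨b * u, hb.mul hu, by ring⟩

/-- the intersection of the multiples of two forms -/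
theorem inf_mulS {g a b : MvPolynomial (Fin 3) K} (hg : g ≠ 0) (hab : IsRelPrime a b)
    {e : ℕ} (ha : a.IsHomogeneous e) (ha0 : a ≠ 0) {r : ℕ} (her : e ≤ r) :
    mulS (g * a) r ⊓ mulS (g * b) r ≤ mulS (g * a * b) (r - e) := by
  rintro x ⟨h1, h2⟩
  obtain ⟨u, hu, rfl⟩ := mem_mulS.1 h1
  obtain ⟨v, hv, hv2⟩ := mem_mulS.1 h2
  have h3 : b * v = a * u := by
    apply mul_left_cancel₀ hg
    rw [← mul_assoc, ← mul_assoc, hv2]
  have h4 : a ∣ v := hab.dvd_of_dvd_mul_left (by rw [h3]; exact dvd_mul_right a u)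
  obtain ⟨w, rfl⟩ := h4
  by_cases hw : a * w = 0
  · rw [hw, mul_zero] at hv2
    rw [← hv2]
    exact (mulS (g * a * b) (r - e)).zero_mem
  · have h5 := (hom_quot hv ha hw).2
    exact mem_mulS.2 ⟨w, h5, by rw [← hv2]; ring⟩

theorem sup_mulS {g a b : MvPolynomial (Fin 3) K} (hg : g ≠ 0) (hab : IsRelPrime a b)
    {e : ℕ} (ha : a.IsHomogeneous e) (ha0 : a ≠ 0) (hb0 : b ≠ 0) {r : ℕ} (her : e ≤ r) :
    (r + 2).choose 2 + (r + 2).choose 2 ≤ (r - e + 2).choose 2 +
      Module.finrank K (mulS (g * a) r ⊔ mulS (g * b) r :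
        Submodule K (MvPolynomial (Fin 3) K)) := by
  have h1 := Submodule.finrank_sup_add_finrank_inf_eq (mulS (g * a) r) (mulS (g * b) r)
  rw [finrank_mulS (mul_ne_zero hg ha0), finrank_mulS (mul_ne_zero hg hb0)] at h1
  have h2 := Submodule.finrank_mono (inf_mulS hg hab ha ha0 her)
  rw [finrank_mulS (mul_ne_zero (mul_ne_zero hg ha0) hb0)] at h2
  omega

end

theorem uniq : UniqStatement := by
  intro K _ _ R hR q q' hq hq' hq0 h1 h2
  by_cases hq'0 : q' = 0
  · exact ⟨0, by rw [hq'0, map_zero, zero_mul]⟩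
  obtain ⟨a, b, g, hab, hga, hgb⟩ :=
    UniqueFactorizationMonoid.exists_reduced_factors q hq0 q'
  have hg0 : g ≠ 0 := by rintro rfl; rw [zero_mul] at hga; exact hq0 hga.symm
  have ha0 : a ≠ 0 := by rintro rfl; rw [mul_zero] at hga; exact hq0 hga.symm
  have hb0 : b ≠ 0 := by rintro rfl; rw [mul_zero] at hgb; exact hq'0 hgb.symm
  have h3 : (g * a).IsHomogeneous 2 := by rw [hga]; exact hq
  obtain ⟨i, e, hie, hgi, hae⟩ := hom_of_mul h3 (by rw [hga]; exact hq0)
  have h4 : (g * b).IsHomogeneous 2 := by rw [hgb]; exact hq'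
  have hbe := (hom_quot h4 hgi (by rw [hgb]; exact hq'0)).2
  have hfR : FiniteDimensional K R := FiniteDimensional.of_finrank_pos (by rw [hR.dim]; norm_num)
  have hle : mulS (g * a) 4 ⊔ mulS (g * b) 4 ≤ R := by
    rw [hga, hgb]; exact sup_le h1 h2
  have h5 := sup_mulS hg0 hab hae ha0 hb0 (r := 4) (by omega)
  have h6 := Submodule.finrank_mono hle
  rw [hR.dim] at h6
  have hi : i = 0 ∨ i = 1 ∨ i = 2 := by omega
  rcases hi with rfl | rfl | rfl
  · -- coprime
    have : e = 2 := by omega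
    subst this
    have e1 : (4 + 2).choose 2 = 15 := by decide
    have e2 : (4 - 2 + 2).choose 2 = 6 := by decide
    rw [e1, e2] at h5
    omega
  · -- a common linear form
    exfalso
    have : e = 1 := by omega
    subst this
    have e1 : (4 + 2).choose 2 = 15 := by decide
    have e2 : (4 - 1 + 2).choose 2 = 10 := by decide
    rw [e1, e2] at h5
    have h7 : mulS (g * a) 4 ⊔ mulS (g * b) 4 = R :=
      Submodule.eq_of_le_of_finrank_le hle (by rw [hR.dim]; omega)
    have h8 : R ≤ mulS g 5 := by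
      rw [← h7]
      refine sup_le ?_ ?_
      · exact mulS_mul_le (i := 1) hae 4
      · exact mulS_mul_le (i := 1) hbe 4
    have h9 := hR.line g hgi hg0
    rw [sup_eq_right.2 h8, finrank_mulS hg0] at h9
    have e3 : (5 + 2).choose 2 = 21 := by decide
    rw [e3] at h9
    omega
  · have : e = 0 := by omega
    subst this
    have hbe' : b.IsHomogeneous 0 := hbe
    have ha' : a = C (coeff 0 a) := (totalDegree_eq_zero_iff_eq_C).1
      (Nat.le_zero.1 hae.totalDegree_le)
    have hb' : b = C (coeff 0 b) := (totalDegree_eq_zero_iff_eq_C).1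
      (Nat.le_zero.1 hbe'.totalDegree_le)
    have hα : coeff 0 a ≠ 0 := by
      intro h; rw [h, map_zero] at ha'; exact ha0 ha'
    refine ⟨coeff 0 b / coeff 0 a, ?_⟩
    rw [← hga, ← hgb]
    conv_lhs => rw [hb']
    conv_rhs => rw [ha']
    rw [coeff_C, if_pos rfl, mul_left_comm, ← C_mul, div_mul_cancel₀ _ hα]

end Pool.Agent.T2.H60
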