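import Pool.Agent.Lib.MP_c7af3c_ag.T2.Iface

/-!
# MP_c7af3c_ag, project T2: the seam between part (A) and the plane type (row SEAM, helper60)
-/

set_option autoImplicit false

namespace Pool.Agent.T2.H60

open MvPolynomial Pool.Agent.Gen Pool.Agent.Sharp Pool.Agent.Edge
open Pool.Agent.Edge.H65 (ssub ssub_X ssub_hom)

section

variable {K : Type} [Field K] (t : Fin 3 → Fin (4 + 1)) (P : Fin 3 → Fin (4 + 1) → K)

/-- the multiples of the forms `lam f` by the forms of degree `m` -/
noncomputable def Ul (m : ℕ) : Submodule K (MvPolynomial (Fin (4 + 1)) K) :=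
  Submodule.span K {g | ∃ A f, A.IsHomogeneous m ∧ g = A * lam t P f}

theorem Ul_mul {m : ℕ} {g : MvPolynomial (Fin (4 + 1)) K} (hg : g ∈ Ul t P m)
    (f : Fin (4 + 1)) : X f * g ∈ Ul t P (m + 1) := by
  have h1 : (Ul t P m) ≤ (Ul t P (m + 1)).comap (LinearMap.mulLeft K (X f)) := by
    refine Submodule.span_le.2 ?_
    rintro _ ⟨A, f', hA, rfl⟩
    refine Submodule.subset_span ⟨A * X f, f', hA.mul (isHomogeneous_X K f), ?_⟩
    rw [LinearMap.mulLeft_apply]
    ring
  exact h1 hg

theorem rho_lam (f : Fin (4 + 1)) :
    (X f : MvPolynomial (Fin (4 + 1)) K) - rename t (ssub P (X f)) = lam t P f := by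
  rw [ssub_X, map_sum]
  unfold lam
  congr 1
  refine Finset.sum_congr rfl fun i _ => ?_
  rw [map_mul, rename_C, rename_X]

/-- a form is equal to its normal form modulo the forms `lam f` -/
theorem sub_rho {m : ℕ} {G : MvPolynomial (Fin (4 + 1)) K} (hG : G.IsHomogeneous (m + 1)) :
    G - rename t (ssub P G) ∈ Ul t P m := by
  classical
  have key : ∀ (m : ℕ) (I : Fin (4 + 1) →₀ ℕ), I.degree = m + 1 → ∀ a : K,
      monomial I a - rename t (ssub P (monomial I a)) ∈ Ul t P m := by
    intro m
    induction m with
    | zero =>
      intro I hI a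
      obtain ⟨f, hf⟩ : ∃ f, I f ≠ 0 := by
        by_contra hcon
        push Not at hcon
        have : I = 0 := Finsupp.ext hcon
        rw [this, map_zero] at hI
        omega
      have h1 : I = Finsupp.single f 1 + (I - Finsupp.single f 1) :=
        (add_tsub_cancel_of_le (Finsupp.single_le_iff.2 (Nat.one_le_iff_ne_zero.2 hf))).symm
      have h2 : I - Finsupp.single f 1 = 0 := by
        have h3 := congrArg Finsupp.degree h1
        rw [map_add, Finsupp.degree_single] at h3
        exact (Finsupp.degree_eq_zero_iff _).1 (by omega)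
      rw [h2, add_zero] at h1
      have h4 : (monomial I a : MvPolynomial (Fin (4 + 1)) K) = C a * X f := by
        rw [h1, C_mul_X_eq_monomial]
      rw [h4, map_mul, map_mul]
      have h5 : rename t (ssub P (C a)) = (C a : MvPolynomial (Fin (4 + 1)) K) := by
        rw [H65.ssub_C, rename_C]
      rw [h5, ← mul_sub, rho_lam]
      exact Submodule.subset_span ⟨C a, f, isHomogeneous_C _ a, rfl⟩
    | succ m ih =>
      intro I hI a
      obtain ⟨f, hf⟩ : ∃ f, I f ≠ 0 := by
        by_contra hcon
        push Not at hcon
        have : I = 0 := Finsupp.ext hcon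
        rw [this, map_zero] at hI
        omega
      have h1 : I = Finsupp.single f 1 + (I - Finsupp.single f 1) :=
        (add_tsub_cancel_of_le (Finsupp.single_le_iff.2 (Nat.one_le_iff_ne_zero.2 hf))).symm
      set J := I - Finsupp.single f 1 with hJ
      have h2 : J.degree = m + 1 := by
        have h3 := congrArg Finsupp.degree h1
        rw [map_add, Finsupp.degree_single] at h3
        omega
      have h4 : (monomial I a : MvPolynomial (Fin (4 + 1)) K) = X f * monomial J a := by
        rw [h1, X, monomial_mul, one_mul]
      have h5 := ih J h2 a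
      have hJh : (monomial J a : MvPolynomial (Fin (4 + 1)) K).IsHomogeneous (m + 1) :=
        isHomogeneous_monomial _ h2
      have h6 : (rename t (ssub P (monomial J a))).IsHomogeneous (m + 1) :=
        (ssub_hom P hJh).rename_isHomogeneous
      rw [h4, map_mul, map_mul]
      have h7 : X f * monomial J a - rename t (ssub P (X f)) * rename t (ssub P (monomial J a)) =
          X f * (monomial J a - rename t (ssub P (monomial J a))) +
          rename t (ssub P (monomial J a)) * (X f - rename t (ssub P (X f))) := by ring
      rw [h7, rho_lam]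
      exact (Ul t P (m + 1)).add_mem (Ul_mul t P h5 f)
        (Submodule.subset_span ⟨_, f, h6, rfl⟩)
  have h1 : G - rename t (ssub P G) = ∑ I ∈ G.support,
      (monomial I (coeff I G) - rename t (ssub P (monomial I (coeff I G)))) := by
    rw [Finset.sum_sub_distrib, ← map_sum, ← map_sum, support_sum_monomial_coeff]
  rw [h1]
  refine Submodule.sum_mem _ fun I hI => key m I ?_ _
  have := hG (mem_support_iff.1 hI)
  rw [← this, Finsupp.degree_eq_weight_one]
  rfl

end

theorem seam : SeamStatement := by
  intro Ω _ _ k Γ _ S D x j0 hS hw hE t P hC hvan hint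
  have hinj : Function.Injective t := by
    intro i j hij
    by_contra hne
    have h1 := hC.Pt i j
    have h2 := hC.Pt i i
    rw [if_neg hne, ← hij] at h1
    rw [if_pos rfl, h1] at h2
    exact zero_ne_one h2
  refine ⟨hS.comm, hS.h0 0, hw, hinj, hC.Pt, by rw [hC.t0]; exact hS.hj0, hC.xP, ?_, ?_⟩
  · intro G hG h0
    have h1 := sub_rho t P (m := 5) hG
    rw [h0, map_zero, sub_zero] at h1
    constructor
    · have h2 : Ul t P 5 ≤ LinearMap.ker (D.V x 0) := by
        refine Submodule.span_le.2 ?_
        rintro _ ⟨A, f, hA, rfl⟩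
        exact hvan A hA f
      exact h2 h1
    · intro i
      have h2 : Ul t P 5 ≤ LinearMap.ker (D.V (P i) 0) := by
        refine Submodule.span_le.2 ?_
        rintro _ ⟨A, f, hA, rfl⟩
        exact hint A hA f i
      exact h2 h1
  · intro y κ hy
    by_contra hcon
    push Not at hcon
    have h1 := hE y hy
    have h2 : Lines.E1 D x y ≤ Submodule.span Ω {x, κ} := by
      refine Submodule.span_le.2 ?_
      rintro u ((hu | ⟨p, q, rfl⟩) | ⟨G, hG, hl, rfl⟩)
      · rw [Set.mem_singleton_iff] at hu
        rw [hu]
        exact Submodule.subset_span (by simp)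
      · exact Submodule.span_mono (by simp) (hw p q)
      · have h3 := hcon (G 0) (hG 0) (hl 0)
        have h4 : VT D x G = D.V x 0 (G 0) := by
          rw [VT_apply, Fin.sum_univ_one]
        rw [h4]
        exact h3
    have h3 := Submodule.finrank_mono h2
    have h4 : Module.finrank Ω (Submodule.span Ω ({x, κ} : Set (Fin 5 → Ω))) ≤ 2 := by
      classical
      have := finrank_span_finset_le_card (R := Ω) ({x, κ} : Finset (Fin 5 → Ω))
      rw [Finset.coe_pair] at this
      exact this.trans Finset.card_le_two
    exact absurd (h1.trans (h3.trans h4)) (by norm_num)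

end Pool.Agent.T2.H60
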