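import Pool.Agent.Lib.MP_c7af3c_ag.T2.M3.Defs

/-!
# MP_c7af3c_ag, project T2: M3, row A (the adapted frame)
`t'` with the largest minor, `P' = (Mt P t')⁻¹ P` (Cramer), then the point divided by its largest
coordinate as first vector of the frame.
-/

set_option autoImplicit false

namespace Pool.Agent.T2.M3

open MvPolynomial Pool.Agent.Gen Pool.Agent.Sharp Pool.Agent.Edge Pool.Agent.T2

theorem m3a : AStatement := by
  intro L _ Γ _ v x t P hPt hx0 hxP
  classical
  obtain ⟨t', -, hmax⟩ := Finset.exists_max_image (Finset.univ : Finset (Fin 3 → Fin 5))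
    (fun τ => v (Mt P τ).det) Finset.univ_nonempty
  replace hmax : ∀ τ, v (Mt P τ).det ≤ v (Mt P t').det := fun τ => hmax τ (Finset.mem_univ τ)
  have hone : Mt P t = 1 := by
    ext i j
    rw [Matrix.one_apply]
    exact hPt i j
  have hdet1 : (1 : Γ) ≤ v (Mt P t').det := by
    have := hmax t
    rwa [hone, Matrix.det_one, map_one] at this
  have hvne : v (Mt P t').det ≠ 0 := fun h => by
    rw [h] at hdet1
    exact absurd hdet1 (not_le.2 zero_lt_one)
  have hdet : (Mt P t').det ≠ 0 := fun h => hvne (by rw [h, map_zero])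
  set N := Mt P t' with hN
  have hunit : IsUnit N.det := isUnit_iff_ne_zero.2 hdet
  -- the matrices
  let Pm : Matrix (Fin 3) (Fin 5) L := Matrix.of fun i f => P i f
  let P' : Matrix (Fin 3) (Fin 5) L := N⁻¹ * Pm
  have hNP : N * P' = Pm := by
    simp only [P']
    rw [← Matrix.mul_assoc, Matrix.mul_nonsing_inv _ hunit, Matrix.one_mul]
  -- Cramer
  have hcr : ∀ i f, N.det * P' i f = (Mt P (Function.update t' i f)).det := by
    intro i f
    have h1 : N.mulVec (fun k => P' k f) = fun k => P k f := by
      ext k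
      have := congrFun (congrFun hNP k) f
      rw [Matrix.mul_apply] at this
      exact this
    have h2 := Matrix.cramer_apply N (fun k => P k f) i
    have h3 : Mt P (Function.update t' i f) = N.updateCol i (fun k => P k f) := by
      ext k j
      rw [Matrix.updateCol_apply]
      by_cases hj : j = i
      · subst hj; simp [Mt]
      · simp [Mt, hN, Function.update_of_ne hj, hj]
    rw [h3, ← h2, ← h1, Matrix.cramer_eq_adjugate_mulVec, Matrix.mulVec_mulVec,
      Matrix.adjugate_mul, Matrix.smul_mulVec, Matrix.one_mulVec]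
    simp
  have hvP' : ∀ i f, v (P' i f) ≤ 1 := by
    intro i f
    have h1 := congrArg v (hcr i f)
    rw [map_mul] at h1
    have h2 := hmax (Function.update t' i f)
    rw [← h1] at h2
    have h3 : v N.det * v (P' i f) ≤ v N.det * 1 := by rwa [mul_one]
    exact (mul_le_mul_iff_right₀ (zero_lt_iff.2 hvne)).1 h3
  have hinv : ∀ i j, v (N⁻¹ i j) ≤ 1 := by
    intro i j
    have h1 : P' i (t j) = N⁻¹ i j := by
      simp only [P', Matrix.mul_apply, Pm, Matrix.of_apply]
      rw [Finset.sum_eq_single j]
      · rw [hPt, if_pos rfl, mul_one]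
      · intro k _ hk
        rw [hPt, if_neg hk, mul_zero]
      · intro h; exact absurd (Finset.mem_univ j) h
    rw [← h1]
    exact hvP' i (t j)
  -- the coordinates of the point
  obtain ⟨s, -, hs⟩ := Finset.exists_max_image (Finset.univ : Finset (Fin 3))
    (fun j => v (x (t' j))) Finset.univ_nonempty
  replace hs : ∀ j, v (x (t' j)) ≤ v (x (t' s)) := fun j => hs j (Finset.mem_univ j)
  let A : Matrix (Fin 3) (Fin 3) L := !![x (t 0), x (t 1), x (t 2); 0, 1, 0; 0, 0, 1]
  have hAdet : A.det = 1 := by
    simp [A, Matrix.det_fin_three, hx0]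
  have hA0 : ∀ j, (A * N) 0 j = x (t' j) := by
    intro j
    rw [hxP (t' j), Matrix.mul_apply]
    refine Finset.sum_congr rfl fun i _ => ?_
    have : A 0 i = x (t i) := by fin_cases i <;> simp [A]
    rw [this, mul_comm]
    rfl
  have hAP : ∀ i f, (A * Pm) i f = (![x, P 1, P 2] : Fin 3 → Fin 5 → L) i f := by
    intro i f
    rw [Matrix.mul_apply]
    fin_cases i
    · simp only [Fin.zero_eta, Matrix.cons_val_zero]
      rw [hxP f]
      refine Finset.sum_congr rfl fun i _ => ?_
      have : A 0 i = x (t i) := by fin_cases i <;> simp [A]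
      rw [this, mul_comm]
      rfl
    · simp [A, Pm, Fin.sum_univ_three]
    · simp [A, Pm, Fin.sum_univ_three]
  have hxP' : ∀ f, x f = ∑ j, x (t' j) * P' j f := by
    intro f
    have h1 := hAP 0 f
    rw [← hNP, ← Matrix.mul_assoc, Matrix.mul_apply] at h1
    simp only [Matrix.cons_val_zero] at h1
    rw [← h1]
    exact Finset.sum_congr rfl fun j _ => by rw [hA0]
  have hvx : ∀ f, v (x f) ≤ v (x (t' s)) := by
    intro f
    rw [hxP' f]
    refine v.map_sum_le fun j _ => ?_
    rw [map_mul]
    exact (mul_le_mul' (hs j) (hvP' j f)).trans (by rw [mul_one])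
  have hξ0 : x (t' s) ≠ 0 := by
    intro h
    have h1 := hvx (t 0)
    rw [hx0, h, map_one, map_zero] at h1
    exact absurd h1 (not_le.2 zero_lt_one)
  have hvξ : v (x (t' s)) ≠ 0 := (Valuation.ne_zero_iff v).2 hξ0
  -- the matrix R
  let σ : Equiv.Perm (Fin 3) := Equiv.swap 0 s
  let R : Matrix (Fin 3) (Fin 3) L := Matrix.of fun i j =>
    if i = 0 then x (t' j) / x (t' s) else if j = σ i then 1 else 0
  have hR0 : ∀ j, R 0 j = x (t' j) / x (t' s) := fun j => by simp [R]
  have hRi : ∀ i, i ≠ 0 → ∀ j, R i j = if j = σ i then 1 else 0 := fun i hi j => by simp [R, hi]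
  have hRt : (R.submatrix id σ).det = 1 := by
    have hup : (R.submatrix id σ).BlockTriangular id := by
      intro i j hij
      simp only [id_eq] at hij
      have hi : i ≠ 0 := by rintro rfl; exact absurd hij (by simp)
      rw [Matrix.submatrix_apply, id, hRi i hi, if_neg (fun h => by
        rw [σ.injective h] at hij; exact lt_irrefl _ hij)]
    rw [Matrix.det_of_upperTriangular hup]
    refine Finset.prod_eq_one fun i _ => ?_
    by_cases hi : i = 0
    · subst hi
      rw [Matrix.submatrix_apply, id, hR0]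
      simp only [σ, Equiv.swap_apply_left]
      exact div_self hξ0
    · rw [Matrix.submatrix_apply, id, hRi i hi, if_pos rfl]
  have hRd : v R.det = 1 := by
    have h1 := Matrix.det_permute' σ R
    have h2 : (R.submatrix id σ).det = ((Equiv.Perm.sign σ : ℤ) : L) * R.det := h1
    rw [hRt] at h2
    rcases Int.units_eq_one_or (Equiv.Perm.sign σ) with h | h
    · rw [h] at h2
      simp at h2
      rw [← h2, map_one]
    · rw [h] at h2
      simp at h2
      have : R.det = -1 := by rw [h2]; ring
      rw [this, Valuation.map_neg, map_one]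
  have hRne : R.det ≠ 0 := fun h => by
    rw [h, map_zero] at hRd
    exact zero_ne_one hRd
  have hRu : IsUnit R.det := isUnit_iff_ne_zero.2 hRne
  let Q : Matrix (Fin 3) (Fin 5) L := R * P'
  have hQ0 : ∀ f, Q 0 f = x f / x (t' s) := by
    intro f
    simp only [Q, Matrix.mul_apply, hR0]
    rw [hxP' f, Finset.sum_div]
    exact Finset.sum_congr rfl fun j _ => by ring
  have hQi : ∀ i, i ≠ 0 → ∀ f, Q i f = P' (σ i) f := by
    intro i hi f
    simp only [Q, Matrix.mul_apply, hRi i hi]
    simp
  refine ⟨t', Q, A * N * R⁻¹, hdet, hinv, hmax, ?_, ?_, ?_, ?_, ?_, ?_, ?_⟩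
  · rw [Matrix.det_mul, Matrix.det_mul, hAdet, one_mul]
    refine mul_ne_zero hdet ?_
    rw [Matrix.det_nonsing_inv, Ring.inverse_eq_inv']
    exact inv_ne_zero hRne
  · rw [Matrix.det_mul, Matrix.det_mul, hAdet, one_mul, Matrix.det_nonsing_inv,
      Ring.inverse_eq_inv', map_mul, map_inv₀, hRd, inv_one, mul_one]
  · have : ∀ k, (A * N * R⁻¹) 0 k = x (t' s) * (R * R⁻¹) 0 k := by
      intro k
      rw [Matrix.mul_apply, Matrix.mul_apply, Finset.mul_sum]
      refine Finset.sum_congr rfl fun j _ => ?_
      rw [hA0, hR0]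
      field_simp
    rw [this, Matrix.mul_nonsing_inv _ hRu]
    simp
  · have : ∀ k, (A * N * R⁻¹) 0 k = x (t' s) * (R * R⁻¹) 0 k := by
      intro k
      rw [Matrix.mul_apply, Matrix.mul_apply, Finset.mul_sum]
      refine Finset.sum_congr rfl fun j _ => ?_
      rw [hA0, hR0]
      field_simp
    rw [this, Matrix.mul_nonsing_inv _ hRu]
    simp
  · intro i f
    rw [← hAP i f, ← hNP, ← Matrix.mul_assoc]
    have h1 : A * N * P' = A * N * R⁻¹ * Q := by
      simp only [Q]
      rw [Matrix.mul_assoc (A * N) R⁻¹, ← Matrix.mul_assoc R⁻¹ R, Matrix.nonsing_inv_mul _ hRu,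
        Matrix.one_mul]
    rw [h1, Matrix.mul_apply]
  · intro i f
    by_cases hi : i = 0
    · subst hi
      rw [hQ0, map_div₀]
      exact (div_le_one₀ (zero_lt_iff.2 hvξ)).2 (hvx f)
    · rw [hQi i hi]
      exact hvP' _ _
  · exact ⟨t' s, by rw [hQ0]; exact div_self hξ0⟩

end Pool.Agent.T2.M3
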